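import Pool.Agent.helper52.BG.PB
import Pool.Agent.helper97.BG.Basic
import Pool.Agent.helper97.BG.LSDefs

/-!
# BOG-PHI: integrality and transformation of the derivations; the alternating forms
-/

namespace Pool.Agent.helper97.BG

open Module

variable {k K : Type*} [Field k] [Field K] [Algebra k K]

namespace PHI

theorem charP_K (k : Type*) {K : Type*} [Field k] [Field K] [Algebra k K] [CharP k 2] :
    CharP K 2 :=
  charP_of_injective_algebraMap (algebraMap k K).injective 2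

/-- symmetry of the bracket in characteristic two -/
theorem symm [CharP k 2] {d : PD k K} {B : Derivation k K (Derivation k K K)}
    (hB : IsBr d B) (f g : K) : B f g = B g f := by
  have := charP_K k (K := K)
  have h1 := hB.alt (f + g)
  rw [map_add B f g, Derivation.add_apply, map_add, map_add, hB.alt f, hB.alt g, zero_add,
    add_zero] at h1
  exact CharTwo.add_eq_zero.mp h1

theorem V_mem (d : PD k K) (i : Fin 5) : d.V i ∈ d.O :=
  Algebra.subset_adjoin (Set.mem_insert_of_mem _ ⟨i, rfl⟩)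

theorem y_mem (d : PD k K) : d.y ∈ d.O := Algebra.subset_adjoin (Set.mem_insert _ _)

theorem Eo_le (d : PD k K) : d.Eo ≤ d.O := by
  apply Algebra.adjoin_le
  rintro x (rfl | ⟨i, rfl⟩)
  · exact d.O.pow_mem (y_mem d) 2
  · exact V_mem d i

/-- a derivation with integral values on the `V i` has integral values on `Eo` -/
theorem der_mem [CharP k 2] (d : PD k K) (D : Derivation k K K)
    (hD : ∀ i, D (d.V i) ∈ d.O) {f : K} (hf : f ∈ d.Eo) : D f ∈ d.O := by
  have := charP_K k (K := K)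
  induction hf using Algebra.adjoin_induction with
  | mem x hx =>
    rcases hx with rfl | ⟨i, rfl⟩
    · have h : D (d.y ^ 2) = 0 := by
        rw [Derivation.leibniz_pow, CharTwo.two_nsmul]
      rw [h]; exact d.O.zero_mem
    · exact hD i
  | algebraMap r =>
    rw [Derivation.map_algebraMap]
    exact d.O.zero_mem
  | add x y hx hy h1 h2 =>
    rw [map_add]; exact d.O.add_mem h1 h2
  | mul x y hx hy h1 h2 =>
    rw [Derivation.leibniz, smul_eq_mul, smul_eq_mul]
    exact d.O.add_mem (d.O.mul_mem (Eo_le d hx) h2) (d.O.mul_mem (Eo_le d hy) h1)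

theorem three [CharP k 2] {d : PD k K} {B : Derivation k K (Derivation k K K)}
    (hB : IsBr d B) (i : Fin 5) :
    B (d.V i) (d.V (i + 3)) = d.V i * d.V (i + 3) * ∏ j, d.V j ^ 4 := by
  have h := hB.two (i + 3)
  have e : i + 3 + 2 = i := by
    have : i + 3 + 2 = i + (3 + 2) := add_assoc _ _ _
    rw [this]; simp
  rw [e] at h
  rw [symm hB, h]; ring

theorem four [CharP k 2] {d : PD k K} {B : Derivation k K (Derivation k K K)}
    (hB : IsBr d B) (i : Fin 5) :
    B (d.V i) (d.V (i + 4)) = d.V (i + 2) ^ 9 * d.V (i + 1) ^ 4 * d.V (i + 3) ^ 4 := by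
  have h := hB.adj (i + 4)
  have e : i + 4 + 1 = i := by
    have : i + 4 + 1 = i + (4 + 1) := add_assoc _ _ _
    rw [this]; simp
  have e2 : i + 4 + 3 = i + 2 := by
    have : i + 4 + 3 = i + (4 + 3) := add_assoc _ _ _
    rw [this]; rfl
  have e3 : i + 4 + 2 = i + 1 := by
    have : i + 4 + 2 = i + (4 + 2) := add_assoc _ _ _
    rw [this]; rfl
  have e4 : i + 4 + 4 = i + 3 := by
    have : i + 4 + 4 = i + (4 + 4) := add_assoc _ _ _
    rw [this]; rfl
  rw [e, e2, e3, e4] at h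
  rw [symm hB, h]

/-- every index is `i + l`, `l = 0, ..., 4` -/
theorem cases5 (i j : Fin 5) : j = i ∨ j = i + 1 ∨ j = i + 2 ∨ j = i + 3 ∨ j = i + 4 := by
  revert i j; decide

theorem prod5 (i : Fin 5) (f : Fin 5 → K) :
    ∏ j, f j = f i * f (i + 1) * f (i + 2) * f (i + 3) * f (i + 4) := by
  rw [← Equiv.prod_comp (Equiv.addLeft i) f, Fin.prod_univ_five]
  simp

/-- the differentiated relation -/
theorem rel_der [CharP k 2] (d : PD k K) (D : Derivation k K K) (i : Fin 5) :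
    d.V i ^ 4 * D (d.V i) = (d.V (i + 2) * d.V (i + 3)) ^ 4 *
      (d.V (i + 2) * D (d.V (i + 3)) + d.V (i + 3) * D (d.V (i + 2))) := by
  have := charP_K k (K := K)
  have h := congrArg D (d.rel i)
  rw [map_add, Derivation.map_one_eq_zero, Derivation.leibniz, Derivation.leibniz_pow,
    Derivation.leibniz_pow, Derivation.leibniz_pow] at h
  simp only [smul_eq_mul, nsmul_eq_mul] at h
  have h5 : ((5 : ℕ) : K) = 1 := by
    have : ((5 : ℕ) : K) = ((2 : ℕ) : K) * 2 + 1 := by norm_num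
    rw [this, CharP.cast_eq_zero K 2]; ring
  have h1 : -(1 : K) = 1 := CharTwo.neg_eq 1
  rw [h5] at h
  simp only [one_mul, Nat.add_one_sub_one] at h
  have h6 := eq_neg_of_add_eq_zero_left h
  rw [CharTwo.neg_eq] at h6
  rw [h6]
  ring

end PHI

theorem IsBr.mem_of_Eo [CharP k 2] {d : PD k K} {B : Derivation k K (Derivation k K K)}
    (hB : IsBr d B) {f g : K} (hf : f ∈ d.Eo) (hg : g ∈ d.Eo) : B f g ∈ d.O := by
  have hV := PHI.V_mem d
  refine PHI.der_mem d (B f) (fun i => ?_) hg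
  rw [PHI.symm hB]
  refine PHI.der_mem d (B (d.V i)) (fun j => ?_) hf
  have hprod : ∏ j, d.V j ^ 4 ∈ d.O := d.O.prod_mem fun j _ => d.O.pow_mem (hV j) 4
  rcases PHI.cases5 i j with rfl | rfl | rfl | rfl | rfl
  · rw [hB.alt]; exact d.O.zero_mem
  · rw [hB.adj]
    exact d.O.mul_mem (d.O.mul_mem (d.O.pow_mem (hV _) _) (d.O.pow_mem (hV _) _))
      (d.O.pow_mem (hV _) _)
  · rw [hB.two]
    exact d.O.mul_mem (d.O.mul_mem (hV _) (hV _)) hprod
  · rw [PHI.three hB]
    exact d.O.mul_mem (d.O.mul_mem (hV _) (hV _)) hprod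
  · rw [PHI.four hB]
    exact d.O.mul_mem (d.O.mul_mem (d.O.pow_mem (hV _) _) (d.O.pow_mem (hV _) _))
      (d.O.pow_mem (hV _) _)

theorem IsBr.Th_mem [CharP k 2] {d : PD k K} {B : Derivation k K (Derivation k K K)}
    (hB : IsBr d B) (j : Fin 5) {f : K} (hf : f ∈ d.Eo) : d.Th B j f ∈ d.O := by
  have hV := PHI.V_mem d
  have h2 := d.V_ne (j + 2)
  have h3 := d.V_ne (j + 3)
  refine PHI.der_mem d (d.Th B j) (fun l => ?_) hf
  have hdef : d.Th B j (d.V l) = ((d.V (j + 2) * d.V (j + 3)) ^ 4)⁻¹ * B (d.V j) (d.V l) := rfl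
  rw [hdef]
  rcases PHI.cases5 j l with rfl | rfl | rfl | rfl | rfl
  · rw [hB.alt, mul_zero]; exact d.O.zero_mem
  · rw [hB.adj]
    have e : ((d.V (j + 2) * d.V (j + 3)) ^ 4)⁻¹ *
        (d.V (j + 3) ^ 9 * d.V (j + 2) ^ 4 * d.V (j + 4) ^ 4) =
        d.V (j + 3) ^ 5 * d.V (j + 4) ^ 4 := by field_simp
    rw [e]
    exact d.O.mul_mem (d.O.pow_mem (hV _) _) (d.O.pow_mem (hV _) _)
  · rw [hB.two, PHI.prod5 j]
    have e : ((d.V (j + 2) * d.V (j + 3)) ^ 4)⁻¹ * (d.V j * d.V (j + 2) *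
        (d.V j ^ 4 * d.V (j + 1) ^ 4 * d.V (j + 2) ^ 4 * d.V (j + 3) ^ 4 * d.V (j + 4) ^ 4)) =
        d.V j * d.V (j + 2) * (d.V j ^ 4 * d.V (j + 1) ^ 4 * d.V (j + 4) ^ 4) := by field_simp
    rw [e]
    exact d.O.mul_mem (d.O.mul_mem (hV _) (hV _)) (d.O.mul_mem (d.O.mul_mem
      (d.O.pow_mem (hV _) _) (d.O.pow_mem (hV _) _)) (d.O.pow_mem (hV _) _))
  · rw [PHI.three hB, PHI.prod5 j]
    have e : ((d.V (j + 2) * d.V (j + 3)) ^ 4)⁻¹ * (d.V j * d.V (j + 3) *
        (d.V j ^ 4 * d.V (j + 1) ^ 4 * d.V (j + 2) ^ 4 * d.V (j + 3) ^ 4 * d.V (j + 4) ^ 4)) =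
        d.V j * d.V (j + 3) * (d.V j ^ 4 * d.V (j + 1) ^ 4 * d.V (j + 4) ^ 4) := by field_simp
    rw [e]
    exact d.O.mul_mem (d.O.mul_mem (hV _) (hV _)) (d.O.mul_mem (d.O.mul_mem
      (d.O.pow_mem (hV _) _) (d.O.pow_mem (hV _) _)) (d.O.pow_mem (hV _) _))
  · rw [PHI.four hB]
    have e : ((d.V (j + 2) * d.V (j + 3)) ^ 4)⁻¹ *
        (d.V (j + 2) ^ 9 * d.V (j + 1) ^ 4 * d.V (j + 3) ^ 4) =
        d.V (j + 2) ^ 5 * d.V (j + 1) ^ 4 := by field_simp
    rw [e]
    exact d.O.mul_mem (d.O.pow_mem (hV _) _) (d.O.pow_mem (hV _) _)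

theorem IsBr.Th_sig [CharP k 2] {d d' : PD k K} {i : Fin 5} (h : IsSig d d' i)
    {B B' : Derivation k K (Derivation k K K)} (hB : IsBr d B) (hB' : IsBr d' B')
    (j : Fin 5) : ∃ p ∈ d'.O, ∃ j', ∀ f, d.Th B j f = d.w i ^ 3 * (p * d'.Th B' j' f) := by
  have hK := PHI.charP_K k (K := K)
  have hV' := PHI.V_mem d'
  have hne := d.V_ne
  have hne' := d'.V_ne
  have e1 : d.V (i + 1) = (d'.V 0)⁻¹ := by rw [h.V0, inv_inv]
  have e0 : d.V i = (d'.V 1)⁻¹ := by rw [h.V1, inv_inv]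
  have n0 := hne' 0
  have n1 := hne' 1
  have n2 := hne' 2
  have n3 := hne' 3
  have n4 := hne' 4
  have e4 : d.V (i + 4) = d'.V 1 * d'.V 2 := by
    rw [h.V2, h.V1]; field_simp [hne i]
  have e2 : d.V (i + 2) = d'.V 0 * d'.V 4 := by
    rw [h.V4, h.V0]; field_simp [hne (i + 1)]
  have e3 : d.V (i + 3) = d'.V 3 / (d'.V 0 * d'.V 1) := by
    rw [h.V3, h.V0, h.V1]; field_simp [hne i, hne (i + 1)]
  have hTh : ∀ j f, d.Th B j f = d.w i ^ 3 * (((d.V (j + 2) * d.V (j + 3)) ^ 4)⁻¹ *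
      B' f (d.V j)) := by
    intro j f
    have hdef : d.Th B j f = ((d.V (j + 2) * d.V (j + 3)) ^ 4)⁻¹ * B (d.V j) f := rfl
    rw [hdef, IsBr.sig h hB hB', PHI.symm hB' (d.V j) f]
    ring
  have hTh' : ∀ j f, d'.Th B' j f = ((d'.V (j + 2) * d'.V (j + 3)) ^ 4)⁻¹ *
      B' f (d'.V j) := by
    intro j f
    have hdef : d'.Th B' j f = ((d'.V (j + 2) * d'.V (j + 3)) ^ 4)⁻¹ * B' (d'.V j) f := rfl
    rw [hdef, PHI.symm hB' (d'.V j) f]
  have a1 : i + 1 + 2 = i + 3 := by rw [add_assoc]; rfl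
  have a2 : i + 1 + 3 = i + 4 := by rw [add_assoc]; rfl
  have a3 : i + 2 + 2 = i + 4 := by rw [add_assoc]; rfl
  have a4 : i + 2 + 3 = i := by rw [add_assoc]; exact add_zero i
  have a5 : i + 3 + 2 = i := by rw [add_assoc]; exact add_zero i
  have a6 : i + 3 + 3 = i + 1 := by rw [add_assoc]; rfl
  have a7 : i + 4 + 2 = i + 1 := by rw [add_assoc]; rfl
  have a8 : i + 4 + 3 = i + 2 := by rw [add_assoc]; rfl
  have b1 : (1 : Fin 5) + 2 = 3 := rfl
  have b2 : (1 : Fin 5) + 3 = 4 := rfl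
  have b3 : (0 : Fin 5) + 2 = 2 := rfl
  have b4 : (0 : Fin 5) + 3 = 3 := rfl
  have b5 : (2 : Fin 5) + 2 = 4 := rfl
  have b6 : (2 : Fin 5) + 3 = 0 := rfl
  have b7 : (3 : Fin 5) + 2 = 0 := rfl
  have b8 : (3 : Fin 5) + 3 = 1 := rfl
  have b9 : (4 : Fin 5) + 2 = 1 := rfl
  have b10 : (4 : Fin 5) + 3 = 2 := rfl
  have r2 := fun f => PHI.rel_der d' (B' f) 2
  have r3 := fun f => PHI.rel_der d' (B' f) 3
  have r4 := fun f => PHI.rel_der d' (B' f) 4
  have q3 := d'.rel 3
  rw [b7, b8] at q3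
  simp only [b5, b6, b7, b8, b9, b10] at r2 r3 r4
  rcases PHI.cases5 i j with rfl | rfl | rfl | rfl | rfl
  · -- `j = i`
    refine ⟨d'.V 1 ^ 2, d'.O.pow_mem (hV' 1) 2, 1, fun f => ?_⟩
    rw [hTh, hTh', e2, e3, e0, b1, b2, Derivation.leibniz_inv, CharTwo.neg_eq, smul_eq_mul]
    field_simp
  · -- `j = i + 1`
    refine ⟨d'.V 0 ^ 2, d'.O.pow_mem (hV' 0) 2, 0, fun f => ?_⟩
    rw [hTh, hTh', a1, a2, e3, e4, e1, b3, b4, Derivation.leibniz_inv, CharTwo.neg_eq,
      smul_eq_mul]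
    field_simp
  · -- `j = i + 2`
    refine ⟨1, d'.O.one_mem, 2, fun f => ?_⟩
    have r := r2 f
    rw [hTh, hTh', a3, a4, e4, e0, e2, b5, b6, Derivation.leibniz, smul_eq_mul, smul_eq_mul]
    have r' : d'.V 0 * B' f (d'.V 4) + d'.V 4 * B' f (d'.V 0) =
        d'.V 2 ^ 4 * B' f (d'.V 2) / (d'.V 4 * d'.V 0) ^ 4 := by
      rw [r]; field_simp; ring
    rw [r']
    field_simp
  · -- `j = i + 3`
    refine ⟨(d'.V 0 * d'.V 1) ^ 2, d'.O.pow_mem (d'.O.mul_mem (hV' 0) (hV' 1)) 2, 3,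
      fun f => ?_⟩
    have r := r3 f
    rw [hTh, hTh', a5, a6, e0, e1, e3, b7, b8, div_eq_mul_inv, Derivation.leibniz,
      Derivation.leibniz_inv, CharTwo.neg_eq, Derivation.leibniz]
    simp only [smul_eq_mul]
    have r' : d'.V 0 * B' f (d'.V 1) + d'.V 1 * B' f (d'.V 0) =
        d'.V 3 ^ 4 * B' f (d'.V 3) / (d'.V 0 * d'.V 1) ^ 4 := by
      rw [r]; field_simp
    rw [r']
    have q3' : d'.V 0 ^ 5 * d'.V 1 ^ 5 = 1 - d'.V 3 ^ 5 := by rw [← q3]; ring
    field_simp
    linear_combination (d.w i ^ 3 * B' f (d'.V 3)) * q3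
  · -- `j = i + 4`
    refine ⟨1, d'.O.one_mem, 4, fun f => ?_⟩
    have r := r4 f
    rw [hTh, hTh', a7, a8, e1, e2, e4, b9, b10, Derivation.leibniz, smul_eq_mul, smul_eq_mul]
    have r' : d'.V 1 * B' f (d'.V 2) + d'.V 2 * B' f (d'.V 1) =
        d'.V 4 ^ 4 * B' f (d'.V 4) / (d'.V 1 * d'.V 2) ^ 4 := by
      rw [r]; field_simp
    rw [r']
    field_simp

/-! ### the forms -/

theorem phi1_alt [CharP K 2] : IsPAlt 2 (fun v : Fin 1 → Fr K => Fr.mk.symm (v 0)) where
  add v i x y := by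
    have hi : i = 0 := Subsingleton.elim _ _
    subst hi
    simp
  smul v i a x := by
    have hi : i = 0 := Subsingleton.elim _ _
    subst hi
    simp only [Function.update_self]
    rfl
  alt v i j hij _ := absurd (Subsingleton.elim i j) hij

namespace PHI

theorem mk_smul [CharP K 2] (a : K) (x : Fr K) : Fr.mk.symm (a • x) = a ^ 2 * Fr.mk.symm x :=
  rfl

theorem der_sq [CharP K 2] (Θ : Derivation k K K) (a x : K) :
    Θ (a ^ 2 * x) = a ^ 2 * Θ x := by
  rw [Derivation.leibniz, Derivation.leibniz_pow, CharTwo.two_nsmul, smul_zero, add_zero,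
    smul_eq_mul]

theorem der_div (Θ : Derivation k K K) {f : K} (hf : f ≠ 0) (g : K) :
    f ^ 2 * Θ (g / f) = f * Θ g - g * Θ f := by
  rw [Derivation.leibniz_div]
  simp only [smul_eq_mul]
  field_simp

theorem ne_zero_of_ind [CharP K 2] {n : ℕ} {v : Fin n → Fr K} (h : LinearIndependent K v)
    (i : Fin n) : Fr.mk.symm (v i) ≠ 0 := by
  intro h0
  apply h.ne_zero i
  have := congrArg Fr.mk h0
  simpa using this

end PHI

theorem phi2_alt [CharP K 2] (Θ : Derivation k K K) :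
    IsPAlt 2 (fun v : Fin 2 → Fr K => Fr.mk.symm (v 0) * Θ (Fr.mk.symm (v 1)) +
      Fr.mk.symm (v 1) * Θ (Fr.mk.symm (v 0))) where
  add v i x y := by
    fin_cases i
    · simp [Function.update]; ring
    · simp [Function.update]; ring
  smul v i a x := by
    have h2 : (2 : K) = 0 := CharTwo.two_eq_zero
    fin_cases i
    · simp [Function.update, PHI.mk_smul]
      linear_combination (a * Fr.mk.symm x * Fr.mk.symm (v 1) * Θ a) * h2
    · simp [Function.update, PHI.mk_smul]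
      linear_combination (Fr.mk.symm (v 0) * a * Fr.mk.symm x * Θ a) * h2
  alt v i j hij h := by
    have h01 : v 0 = v 1 := by
      fin_cases i <;> fin_cases j
      · exact absurd rfl hij
      · exact h
      · exact h.symm
      · exact absurd rfl hij
    simp only [h01]
    exact CharTwo.add_self_eq_zero _

theorem phi3_alt [CharP K 2] (B : Derivation k K (Derivation k K K)) (hB : ∀ f, B f f = 0) :
    IsPAlt 2 (fun v : Fin 3 → Fr K =>
      Fr.mk.symm (v 0) * B (Fr.mk.symm (v 1)) (Fr.mk.symm (v 2)) +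
      Fr.mk.symm (v 1) * B (Fr.mk.symm (v 2)) (Fr.mk.symm (v 0)) +
      Fr.mk.symm (v 2) * B (Fr.mk.symm (v 0)) (Fr.mk.symm (v 1))) := by
  have hsymm : ∀ f g, B f g = B g f := by
    intro f g
    have h1 := hB (f + g)
    rw [map_add B f g, Derivation.add_apply, map_add, map_add, hB f, hB g, zero_add,
      add_zero] at h1
    exact CharTwo.add_eq_zero.mp h1
  have h2 : (2 : K) = 0 := CharTwo.two_eq_zero
  refine ⟨fun v i x y => ?_, fun v i a x => ?_, fun v i j hij h => ?_⟩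
  · fin_cases i
    · simp [Function.update]; ring
    · simp [Function.update]; ring
    · simp [Function.update]; ring
  · fin_cases i
    · simp [Function.update, PHI.mk_smul]
      rw [hsymm a (Fr.mk.symm (v 1))]
      linear_combination (a * Fr.mk.symm x *
        (Fr.mk.symm (v 1) * B (Fr.mk.symm (v 2)) a +
          Fr.mk.symm (v 2) * B (Fr.mk.symm (v 1)) a)) * h2
    · simp [Function.update, PHI.mk_smul]
      rw [hsymm a (Fr.mk.symm (v 2))]
      linear_combination (a * Fr.mk.symm x *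
        (Fr.mk.symm (v 0) * B (Fr.mk.symm (v 2)) a +
          Fr.mk.symm (v 2) * B (Fr.mk.symm (v 0)) a)) * h2
    · simp [Function.update, PHI.mk_smul]
      rw [hsymm a (Fr.mk.symm (v 0))]
      linear_combination (a * Fr.mk.symm x *
        (Fr.mk.symm (v 0) * B (Fr.mk.symm (v 1)) a +
          Fr.mk.symm (v 1) * B (Fr.mk.symm (v 0)) a)) * h2
  · have key : ∀ f g : K, f * B f g + f * B g f + g * B f f = 0 := by
      intro f g
      rw [hB, mul_zero, add_zero, hsymm g f]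
      exact CharTwo.add_self_eq_zero _
    have h3 : v 0 = v 1 ∨ v 1 = v 2 ∨ v 0 = v 2 := by
      fin_cases i <;> fin_cases j
      · exact absurd rfl hij
      · exact Or.inl h
      · exact Or.inr (Or.inr h)
      · exact Or.inl h.symm
      · exact absurd rfl hij
      · exact Or.inr (Or.inl h)
      · exact Or.inr (Or.inr h.symm)
      · exact Or.inr (Or.inl h.symm)
      · exact absurd rfl hij
    rcases h3 with h3 | h3 | h3
    · simp only [h3]
      exact key _ _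
    · simp only [h3]
      have := key (Fr.mk.symm (v 2)) (Fr.mk.symm (v 0))
      linear_combination this
    · simp only [h3]
      have := key (Fr.mk.symm (v 2)) (Fr.mk.symm (v 1))
      linear_combination this

theorem IsBr.phi2_ne [IsAlgClosed k] [CharP k 2] [CharP K 2] {d : PD k K}
    {B : Derivation k K (Derivation k K K)} (hB : IsBr d B) {f g : K}
    (h : LinearIndependent K ![Fr.mk f, Fr.mk g]) :
    ∃ j, f * d.Th B j g + g * d.Th B j f ≠ 0 := by
  by_contra hcon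
  push Not at hcon
  have hf : f ≠ 0 := PHI.ne_zero_of_ind h 0
  have hz : ∀ j, B (d.V j) (g / f) = 0 := by
    intro j
    have h1 := hcon j
    have h2 := PHI.der_div (d.Th B j) hf g
    rw [CharTwo.sub_eq_add, h1] at h2
    have h3 : d.Th B j (g / f) = 0 := by
      rcases mul_eq_zero.mp h2 with h3 | h3
      · exact absurd h3 (pow_ne_zero 2 hf)
      · exact h3
    have hdef : d.Th B j (g / f) = ((d.V (j + 2) * d.V (j + 3)) ^ 4)⁻¹ * B (d.V j) (g / f) := rfl
    rw [hdef] at h3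
    rcases mul_eq_zero.mp h3 with h4 | h4
    · exact absurd h4 (inv_ne_zero (pow_ne_zero 4 (mul_ne_zero (d.V_ne _) (d.V_ne _))))
    · exact h4
  obtain ⟨z, hz⟩ := hB.kernel (hz 0) (hz 1)
  have hg : Fr.mk g = z • Fr.mk f := by
    change Fr.mk g = Fr.mk (z ^ 2 * f)
    rw [← hz]
    congr 1
    field_simp
  have h5 := LinearIndependent.pair_iff.mp h z (-1) (by
    rw [← hg]; simp)
  exact one_ne_zero (neg_eq_zero.mp h5.2)

theorem IsBr.phi3_ne [IsAlgClosed k] [CharP k 2] [CharP K 2] {d : PD k K}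
    {B : Derivation k K (Derivation k K K)} (hB : IsBr d B) {f g h : K}
    (hi : LinearIndependent K ![Fr.mk f, Fr.mk g, Fr.mk h]) :
    f * B g h + g * B h f + h * B f g ≠ 0 := by
  intro h0
  have hf : f ≠ 0 := PHI.ne_zero_of_ind hi 0
  have hD : ∀ u v : K, f ^ 2 * B (u / f) v = f * B u v - u * B f v := by
    intro u v
    have h1 := PHI.der_div (B v) hf u
    rw [PHI.symm hB (u / f) v, PHI.symm hB u v, PHI.symm hB f v]
    exact h1
  have hgh : B (g / f) (h / f) = 0 := by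
    have h1 := PHI.der_div (B (g / f)) hf h
    have h2 := hD g h
    have h3 := hD g f
    have h4 : f ^ 4 * B (g / f) (h / f) = 0 := by
      have e : f ^ 4 * B (g / f) (h / f) = f ^ 2 * (f ^ 2 * B (g / f) (h / f)) := by ring
      rw [e, h1]
      have e2 : f ^ 2 * (f * B (g / f) h - h * B (g / f) f) =
          f * (f ^ 2 * B (g / f) h) - h * (f ^ 2 * B (g / f) f) := by ring
      rw [e2, h2, h3, hB.alt f, CharTwo.sub_eq_add, CharTwo.sub_eq_add, CharTwo.sub_eq_add,
        PHI.symm hB g f, PHI.symm hB f h]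
      linear_combination f * h0
    rcases mul_eq_zero.mp h4 with h5 | h5
    · exact absurd h5 (pow_ne_zero 4 hf)
    · exact h5
  have hnsq : ¬ ∃ z, g / f = z ^ 2 := by
    rintro ⟨z, hz⟩
    have hg : Fr.mk g = z • Fr.mk f := by
      change Fr.mk g = Fr.mk (z ^ 2 * f)
      rw [← hz]
      congr 1
      field_simp
    have h5 := Fintype.linearIndependent_iff.mp hi ![z, -1, 0] (by
      simp [Fin.sum_univ_three, hg])
    have h6 := h5 1
    simp at h6
  obtain ⟨z₀, z₁, hz⟩ := hB.kernel2 hgh hnsq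
  have hh : Fr.mk h = z₀ • Fr.mk f + z₁ • Fr.mk g := by
    change Fr.mk h = Fr.mk (z₀ ^ 2 * f + z₁ ^ 2 * g)
    congr 1
    have e : h = (h / f) * f := by field_simp
    rw [e, hz]
    field_simp
  have h5 := Fintype.linearIndependent_iff.mp hi ![z₀, z₁, -1] (by
    simp [Fin.sum_univ_three, hh]
    abel)
  have h6 := h5 2
  simp at h6

end Pool.Agent.helper97.BG
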